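import Mathlib

namespace Pool.Agent.H94.Sun

/-- the block identity modulo `25` -/
lemma block {R : Type*} [CommRing R] (h25 : (25 : R) = 0)
    (m b u w b0 b1 b2 b3 b4 u0 u1 u2 u3 u4 w0 w1 w2 w3 w4 : R)
    (hu : (12 * m + 7) * u = b) (hw : (12 * m + 11) * w = (2 * m + 1) * b)
    (h0 : b0 = (1 - 5 * m) * b)
    (h1 : 2 * (5 * m + 1) * b1 = -(10 * m + 1) * b0)
    (h2 : 2 * (5 * m + 2) * b2 = -(10 * m + 3) * b1)
    (h3 : 2 * (5 * m + 3) * b3 = -(10 * m + 5) * b2)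
    (h4 : 2 * (5 * m + 4) * b4 = -(10 * m + 7) * b3)
    (hu0 : (60 * m + 7) * u0 = b0) (hu1 : (60 * m + 19) * u1 = b1)
    (hu2 : (60 * m + 31) * u2 = b2) (hu3 : (60 * m + 43) * u3 = b3)
    (hu4 : 16 * (5 * m + 1) * (5 * m + 2) * (5 * m + 3) * (5 * m + 4) * u4 =
      (10 * m + 1) * (10 * m + 3) * (10 * m + 7) * (1 - 5 * m) * w)
    (hw0 : (60 * m + 11) * w0 = (10 * m + 1) * b0) (hw1 : (60 * m + 23) * w1 = (10 * m + 3) * b1)
    (hw2 : 4 * (5 * m + 1) * (5 * m + 2) * w2 =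
      (2 * m + 1) * (10 * m + 1) * (10 * m + 3) * (1 - 5 * m) * u)
    (hw3 : (60 * m + 47) * w3 = (10 * m + 7) * b3) (hw4 : (60 * m + 59) * w4 = (10 * m + 9) * b4) :
    (b0 - u0 + 6 * w0) + (b1 - u1 + 6 * w1) = (10 + 15 * m) * b ∧
    (b0 - u0 + 6 * w0) + (b1 - u1 + 6 * w1) + (b2 - u2 + 6 * w2) + (b3 - u3 + 6 * w3) +
      (b4 - u4 + 6 * w4) = 11 * (b - u + 6 * w) + (10 + 15 * m) * b := by
  have eb1 : b1 = (12) * b := by
    linear_combination (13 + 10 * m) * h1 + (13 + 10 * m) * ((-1) + (-10) * m) * h0 + ((-1) * b + (-1) * b1 + (-3) * b * m + 24 * b * m ^ 2 + 20 * b * m ^ 3 + (-6) * b1 * m + (-4) * b1 * m ^ 2) * h25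
  have eb2 : b2 = (16 + 5 * m) * b := by
    linear_combination (19 + 15 * m) * h2 + (19 + 15 * m) * ((-3) + (-10) * m) * eb1 + ((-28) * b + (-3) * b2 + (-113) * b * m + (-72) * b * m ^ 2 + (-10) * b2 * m + (-6) * b2 * m ^ 2) * h25
  have eb3 : b3 = (20 + 15 * m) * b := by
    linear_combination (21 + 15 * m) * h3 + (21 + 15 * m) * ((-5) + (-10) * m) * eb2 + ((-68) * b + (-5) * b3 + (-204) * b * m + (-153) * b * m ^ 2 + (-30) * b * m ^ 3 + (-12) * b3 * m + (-6) * b3 * m ^ 2) * h25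
  have eb4 : b4 = (20 + 15 * m) * b := by
    linear_combination (22 + 10 * m) * h4 + (22 + 10 * m) * ((-7) + (-10) * m) * eb3 + ((-124) * b + (-7) * b4 + (-325) * b * m + (-254) * b * m ^ 2 + (-60) * b * m ^ 3 + (-12) * b4 * m + (-4) * b4 * m ^ 2) * h25
  have eu0 : u0 = (18 + 20 * m) * b := by
    linear_combination (18 + 10 * m) * hu0 + (18 + 10 * m) * (1) * h0 + ((-5) * u0 + (-4) * b * m + (-2) * b * m ^ 2 + (-46) * m * u0 + (-24) * m ^ 2 * u0) * h25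
  have eu1 : u1 = (23 + 5 * m) * b := by
    linear_combination (4 + 15 * m) * hu1 + (4 + 15 * m) * (1) * eb1 + (1 * b + (-3) * u1 + 7 * b * m + (-21) * m * u1 + (-36) * m ^ 2 * u1) * h25
  have eu2 : u2 = (11 + 20 * m) * b := by
    linear_combination (21 + 15 * m) * hu2 + (21 + 15 * m) * (1) * eb2 + (13 * b + (-26) * u2 + 13 * b * m + 3 * b * m ^ 2 + (-69) * m * u2 + (-36) * m ^ 2 * u2) * h25
  have eu3 : u3 = (15 + 5 * m) * b := by
    linear_combination (7 + 10 * m) * hu3 + (7 + 10 * m) * (1) * eb3 + (5 * b + (-12) * u3 + 12 * b * m + 6 * b * m ^ 2 + (-34) * m * u3 + (-24) * m ^ 2 * u3) * h25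
  have ew0 : w0 = (16 + 20 * m) * b := by
    linear_combination (16 + 15 * m) * hw0 + (16 + 15 * m) * (1 + 10 * m) * h0 + ((-7) * w0 + 3 * b * m + (-29) * b * m ^ 2 + (-30) * b * m ^ 3 + (-45) * m * w0 + (-36) * m ^ 2 * w0) * h25
  have ew1 : w1 = (7) * b := by
    linear_combination (12 + 10 * m) * hw1 + (12 + 10 * m) * (3 + 10 * m) * eb1 + (17 * b + (-11) * w1 + 72 * b * m + 48 * b * m ^ 2 + (-38) * m * w1 + (-24) * m ^ 2 * w1) * h25
  have ew3 : w3 = (20 + 15 * m) * b := by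
    linear_combination (8 + 10 * m) * hw3 + (8 + 10 * m) * (7 + 10 * m) * eb3 + (44 * b + (-15) * w3 + 153 * b * m + 170 * b * m ^ 2 + 60 * b * m ^ 3 + (-38) * m * w3 + (-24) * m ^ 2 * w3) * h25
  have ew4 : w4 = (20 + 15 * m) * b := by
    linear_combination (14 + 15 * m) * hw4 + (14 + 15 * m) * (9 + 10 * m) * eb4 + (100 * b + (-33) * w4 + 295 * b * m + 285 * b * m ^ 2 + 90 * b * m ^ 3 + (-69) * m * w4 + (-36) * m ^ 2 * w4) * h25
  have eu4 : u4 = (19 + 20 * m) * w := by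
    linear_combination (14) * hu4 + ((-215) * u4 + 11 * w + (-2240) * m * u4 + 114 * m * w + (-7840) * m ^ 2 * u4 + (-252) * m ^ 2 * w + (-11200) * m ^ 3 * u4 + (-2520) * m ^ 3 * w + (-5600) * m ^ 4 * u4 + (-2800) * m ^ 4 * w) * h25
  have ew2 : w2 = (16 + 12 * m + 10 * m ^ 2) * u := by
    linear_combination (22 + 10 * m) * hw2 + (2 * u + (-7) * w2 + 28 * m * u + (-56) * m * w2 + (-32) * m ^ 2 * u + (-112) * m ^ 2 * w2 + (-636) * m ^ 3 * u + (-40) * m ^ 3 * w2 + (-1160) * m ^ 4 * u + (-400) * m ^ 5 * u) * h25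
  constructor
  · linear_combination h0 + eb1 - eu0 - eu1 + 6 * ew0 + 6 * ew1 + (4 + 3 * m) * b * h25
  · linear_combination h0 + eb1 + eb2 + eb3 + eb4 - eu0 - eu1 - eu2 - eu3 - eu4 + 6 * ew0 + 6 * ew1 + 6 * ew2 + 6 * ew3 + 6 * ew4 + (1 + 5 * m) * hu + (15) * hw + (15 * b + 4 * u + (-10) * w + 12 * b * m + 1 * m * u + (-8) * m * w) * h25

end Pool.Agent.H94.Sun
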