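import Mathlib

/-!
# An exact identity for the weighted sums of `binom(6k,3k) binom(3k,k) / 864^k`
-/

namespace Pool.Agent.H94.Sun

open Finset

/-- the terms `binom(6k,3k) binom(3k,k) / 864^k` -/
def t (k : ℕ) : ℚ := (Nat.choose (6 * k) (3 * k) : ℚ) * (Nat.choose (3 * k) k : ℚ) / 864 ^ k

/-- `b m = (-1/4)^m binom(2m,m)` -/
def b (m : ℕ) : ℚ := (-1 / 4) ^ m * (Nat.centralBinom m : ℚ)

/-- `c N n = ∏_{i=1}^{n} (N - i)/(N + i)` -/
def c (N n : ℕ) : ℚ := ∏ i ∈ range n, ((N : ℚ) - (i + 1)) / (N + (i + 1))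

lemma t_fact (k : ℕ) : t k * (864 ^ k * ((3 * k).factorial * (2 * k).factorial * k.factorial)) =
    (6 * k).factorial := by
  have h1 := Nat.choose_mul_factorial_mul_factorial (n := 6 * k) (k := 3 * k) (by omega)
  have h2 := Nat.choose_mul_factorial_mul_factorial (n := 3 * k) (k := k) (by omega)
  have e1 : 6 * k - 3 * k = 3 * k := by omega
  have e2 : 3 * k - k = 2 * k := by omega
  rw [e1] at h1
  rw [e2] at h2
  have h1' : ((6 * k).choose (3 * k) : ℚ) * (3 * k).factorial * (3 * k).factorial =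
      (6 * k).factorial := by exact_mod_cast h1
  have h2' : ((3 * k).choose k : ℚ) * k.factorial * (2 * k).factorial = (3 * k).factorial := by
    exact_mod_cast h2
  unfold t
  rw [← h1']
  conv_rhs => rw [← h2']
  have h864 : (864 : ℚ) ^ k ≠ 0 := by positivity
  field_simp
  rw [← h2']
  ring

lemma t_succ (k : ℕ) : 72 * ((k : ℚ) + 1) ^ 2 * t (k + 1) = (6 * k + 1) * (6 * k + 5) * t k := by
  have h1 := t_fact k
  have h2 := t_fact (k + 1)
  have e1 : 6 * (k + 1) = 6 * k + 5 + 1 := by ring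
  have e2 : 3 * (k + 1) = 3 * k + 2 + 1 := by ring
  have e3 : 2 * (k + 1) = 2 * k + 1 + 1 := by ring
  rw [e1, e2, e3] at h2
  rw [Nat.factorial_succ (6 * k + 5), Nat.factorial_succ (6 * k + 4), Nat.factorial_succ (6 * k + 3),
    Nat.factorial_succ (6 * k + 2), Nat.factorial_succ (6 * k + 1), Nat.factorial_succ (6 * k),
    Nat.factorial_succ (3 * k + 2), Nat.factorial_succ (3 * k + 1), Nat.factorial_succ (3 * k),
    Nat.factorial_succ (2 * k + 1), Nat.factorial_succ (2 * k), Nat.factorial_succ k] at h2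
  push_cast at h2
  rw [← h1, pow_succ] at h2
  have hf1 : ((3 * k).factorial : ℚ) ≠ 0 := by positivity
  have hf2 : ((2 * k).factorial : ℚ) ≠ 0 := by positivity
  have hf3 : (k.factorial : ℚ) ≠ 0 := by positivity
  have h864 : (864 : ℚ) ^ k ≠ 0 := by positivity
  have hk : ((k : ℚ) + 1) ≠ 0 := by positivity
  have hk2 : (2 * (k : ℚ) + 1) ≠ 0 := by positivity
  have hk3 : (3 * (k : ℚ) + 1) ≠ 0 := by positivity
  have hk4 : (3 * (k : ℚ) + 2) ≠ 0 := by positivity
  have hne : (864 : ℚ) ^ k * ((3 * k).factorial * (2 * k).factorial * k.factorial) *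
      (36 * (k + 1) * (2 * k + 1) * (3 * k + 1) * (3 * k + 2)) ≠ 0 := by positivity
  apply mul_left_cancel₀ hne
  linear_combination (72 * 36 / (864 * 3 * 2) : ℚ) * 1 * h2

lemma b_zero : b 0 = 1 := by simp [b]

lemma b_succ (m : ℕ) : 2 * ((m : ℚ) + 1) * b (m + 1) = -(2 * m + 1) * b m := by
  have h := Nat.succ_mul_centralBinom_succ m
  have h' : ((m : ℚ) + 1) * (Nat.centralBinom (m + 1) : ℚ) =
      2 * (2 * m + 1) * Nat.centralBinom m := by exact_mod_cast h
  unfold b
  rw [pow_succ]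
  linear_combination (2 * (-1 / 4 : ℚ) ^ m * (-1 / 4)) * h'

lemma c_zero (N : ℕ) : c N 0 = 1 := by simp [c]

lemma c_succ (N n : ℕ) : ((N : ℚ) + (n + 1)) * c N (n + 1) = ((N : ℚ) - (n + 1)) * c N n := by
  have h : ((N : ℚ) + (n + 1)) ≠ 0 := by positivity
  unfold c
  rw [prod_range_succ]
  field_simp

lemma c_eq_zero {N n : ℕ} (hN : 1 ≤ N) (h : N ≤ n) : c N n = 0 := by
  unfold c
  apply prod_eq_zero (i := N - 1) (mem_range.2 (by omega))
  have : ((N - 1 : ℕ) : ℚ) + 1 = N := by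
    rw [Nat.cast_sub hN]; simp
  rw [this, sub_self, zero_div]

/-- shifting `N` -/
lemma c_shift (N n : ℕ) : ((N : ℚ) + n + 1) * (N + n + 2) * c (N + 1) (n + 1) =
    N * (N + 1) * c N n := by
  induction n with
  | zero =>
    have h1 := c_succ (N + 1) 0
    rw [c_zero] at h1
    rw [c_zero]
    push_cast at h1 ⊢
    linear_combination ((N : ℚ) + 1) * h1
  | succ n ih =>
    have h1 := c_succ (N + 1) (n + 1)
    have h2 := c_succ N n
    push_cast at h1 h2 ih ⊢
    have h3 : ((N : ℚ) + n + 1) ≠ 0 := by positivity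
    apply mul_left_cancel₀ h3
    linear_combination ((N : ℚ) + n + 1) * ((N : ℚ) + n + 2) * h1 +
      ((N : ℚ) - n - 1) * ih - (N : ℚ) * (N + 1) * h2

/-- partial sums of the auxiliary hypergeometric sum -/
def A (N M : ℕ) : ℚ := ∑ m ∈ range M, c N (2 * m + 1) * ((2 * m + 1) * (4 * m + 3) * b m)

/-- the WZ certificate -/
lemma wz (N m : ℕ) : 2 * ((N : ℚ) - 1) * (c (N + 1) (2 * m + 1) * ((2 * m + 1) * (4 * m + 3) * b m)) -
    (N + 1) * (c N (2 * m + 1) * ((2 * m + 1) * (4 * m + 3) * b m)) =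
    -2 * (N + 1) * ((m : ℚ) + 1) * (2 * (m + 1) + 1) * b (m + 1) * c N (2 * (m + 1)) -
    (-2 * (N + 1) * (m : ℚ) * (2 * m + 1) * b m * c N (2 * m)) := by
  have h1 := c_shift N (2 * m)
  have h2 := c_succ N (2 * m)
  have h3 := c_succ N (2 * m + 1)
  have h4 := b_succ m
  have e : 2 * (m + 1) = 2 * m + 1 + 1 := by ring
  rw [e]
  push_cast at h1 h2 h3 ⊢
  have n1 : ((N : ℚ) + 2 * m + 1) ≠ 0 := by positivity
  have n2 : ((N : ℚ) + 2 * m + 2) ≠ 0 := by positivity
  have e1 : c (N + 1) (2 * m + 1) = N * (N + 1) * c N (2 * m) / ((N + 2 * m + 1) * (N + 2 * m + 2)) := by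
    rw [eq_div_iff (mul_ne_zero n1 n2)]
    linear_combination h1
  have e2 : c N (2 * m + 1) = (N - (2 * m + 1)) * c N (2 * m) / (N + 2 * m + 1) := by
    rw [eq_div_iff n1]
    linear_combination h2
  have e3 : c N (2 * m + 1 + 1) = (N - (2 * m + 2)) * c N (2 * m + 1) / (N + 2 * m + 2) := by
    rw [eq_div_iff n2]
    linear_combination h3
  have e4 : ((m : ℚ) + 1) * b (m + 1) = -(2 * m + 1) * b m / 2 := by
    linear_combination h4 / 2
  have e5 : -2 * ((N : ℚ) + 1) * ((m : ℚ) + 1) * (2 * (m + 1) + 1) * b (m + 1) *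
      c N (2 * m + 1 + 1) = -2 * ((N : ℚ) + 1) * (2 * (m + 1) + 1) *
      (((m : ℚ) + 1) * b (m + 1)) * c N (2 * m + 1 + 1) := by ring
  rw [e5, e4, e3, e2, e1]
  field_simp
  ring

lemma A_succ (N M : ℕ) : 2 * ((N : ℚ) - 1) * A (N + 1) M - (N + 1) * A N M =
    -2 * (N + 1) * (M : ℚ) * (2 * M + 1) * b M * c N (2 * M) := by
  induction M with
  | zero => simp [A]
  | succ M ih =>
    have h := wz N M
    have h1 : A (N + 1) (M + 1) = A (N + 1) M +
        c (N + 1) (2 * M + 1) * ((2 * M + 1) * (4 * M + 3) * b M) := by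
      unfold A; rw [sum_range_succ]
    have h2 : A N (M + 1) = A N M + c N (2 * M + 1) * ((2 * M + 1) * (4 * M + 3) * b M) := by
      unfold A; rw [sum_range_succ]
    rw [h1, h2]
    push_cast at h ih ⊢
    linear_combination ih + h

lemma A_eq (N : ℕ) : ∀ M, N + 1 ≤ M → A (N + 1) M = N * (N + 1) / 2 ^ N := by
  induction N with
  | zero =>
    intro M hM
    unfold A
    rw [sum_eq_zero]
    · simp
    · intro m _
      rw [c_eq_zero le_rfl (by omega), zero_mul]
  | succ N ih =>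
    intro M hM
    by_cases hN : N = 0
    · subst hN
      unfold A
      obtain ⟨M', rfl⟩ : ∃ M', M = M' + 1 := ⟨M - 1, by omega⟩
      rw [sum_range_succ', sum_eq_zero, zero_add]
      · simp only [Nat.mul_zero, zero_add]
        have h1 := c_succ 2 0
        rw [c_zero] at h1
        rw [b_zero]
        norm_num at h1 ⊢
        linarith
      · intro m _
        rw [c_eq_zero (by omega) (by omega), zero_mul]
    · have h1 := A_succ (N + 1) M
      rw [c_eq_zero (by omega) (by omega : N + 1 ≤ 2 * M), mul_zero, ih M (by omega)] at h1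
      push_cast at h1 ⊢
      have hN' : (N : ℚ) ≠ 0 := by exact_mod_cast hN
      have h2 : (2 * (N : ℚ)) ≠ 0 := mul_ne_zero two_ne_zero hN'
      apply mul_left_cancel₀ h2
      rw [pow_succ]
      have h3 : (2 : ℚ) ^ N ≠ 0 := by positivity
      have h4 : 2 * (N : ℚ) * A (N + 1 + 1) M = ((N : ℚ) + 1 + 1) * (N * (N + 1) / 2 ^ N) := by
        linear_combination h1
      rw [h4]
      field_simp

/-- the sum in the exact identity -/
def D (N M : ℕ) : ℚ := ∑ m ∈ range M, c N (2 * m + 1) *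
  ((2 * m + 1) * (4 * m + 3) * b m / ((12 * m + 7) * (12 * m + 11)))

lemma D_succ (N M : ℕ) : (6 * (N : ℚ) + 1) * (6 * N + 5) * D (N + 1) M =
    36 * N * (N + 1) * D N M + A (N + 1) M := by
  unfold D A
  rw [mul_sum, mul_sum, ← sum_add_distrib]
  refine sum_congr rfl fun m _ => ?_
  have h1 := c_shift N (2 * m)
  have h2 := c_succ N (2 * m)
  push_cast at h1 h2
  have n1 : ((N : ℚ) + 2 * m + 1) ≠ 0 := by positivity
  have n2 : ((N : ℚ) + 2 * m + 2) ≠ 0 := by positivity
  have n3 : (12 * (m : ℚ) + 7) ≠ 0 := by positivity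
  have n4 : (12 * (m : ℚ) + 11) ≠ 0 := by positivity
  have e1 : c (N + 1) (2 * m + 1) = N * (N + 1) * c N (2 * m) / ((N + 2 * m + 1) * (N + 2 * m + 2)) := by
    rw [eq_div_iff (mul_ne_zero n1 n2)]
    linear_combination h1
  have e2 : c N (2 * m + 1) = (N - (2 * m + 1)) * c N (2 * m) / (N + 2 * m + 1) := by
    rw [eq_div_iff n1]
    linear_combination h2
  rw [e1, e2]
  field_simp
  ring

/-- The exact identity. -/
theorem exact_identity (N : ℕ) : ∀ M, N ≤ M →
    ∑ k ∈ range N, (k : ℚ) * t k = 36 * N * 2 ^ N * t N * D N M := by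
  induction N with
  | zero => intro M _; simp
  | succ N ih =>
    intro M hM
    rw [sum_range_succ, ih M (by omega)]
    have h1 := t_succ N
    have h2 := D_succ N M
    rw [A_eq N M hM] at h2
    push_cast
    have h3 : ((N : ℚ) + 1) ≠ 0 := by positivity
    apply mul_left_cancel₀ h3
    have h4 : (2 : ℚ) ^ N ≠ 0 := by positivity
    have h5 : (2 : ℚ) ^ N * (N * (N + 1) / 2 ^ N) = N * (N + 1) := by field_simp
    rw [pow_succ]
    linear_combination (-2 ^ N * D (N + 1) M) * h1 - 2 ^ N * t N * h2 - t N * h5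

end Pool.Agent.H94.Sun
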