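import Mathlib
import Pool.Agent.H94.Sun.Block

/-!
# `5`-adic analysis of the exact identity
-/

namespace Pool.Agent.H94.Sun

open Finset

instance fact5 : Fact (Nat.Prime 5) := ⟨by norm_num⟩

lemma isUnit_nat {n : ℕ} (h : n % 5 ≠ 0) : IsUnit (n : ℤ_[5]) := by
  rw [PadicInt.isUnit_iff, PadicInt.norm_natCast_eq_one_iff]
  rw [Nat.Prime.coprime_iff_not_dvd (by norm_num)]
  intro h'
  exact h (Nat.mod_eq_zero_of_dvd h')

lemma exists_i4 : ∃ i : ℤ_[5], 4 * i = 1 := by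
  obtain ⟨c, hc⟩ := (isUnit_nat (n := 4) (by norm_num)).dvd (a := (1 : ℤ_[5]))
  exact ⟨c, by rw [hc]; norm_num⟩

/-- the inverse of `4` -/
noncomputable def i4 : ℤ_[5] := exists_i4.choose

lemma four_i4 : 4 * i4 = 1 := exists_i4.choose_spec

/-- `(-1/4)^m binom(2m,m)` as a `5`-adic integer -/
noncomputable def bz (m : ℕ) : ℤ_[5] := (-i4) ^ m * (Nat.centralBinom m : ℤ_[5])

lemma bz_zero : bz 0 = 1 := by simp [bz]

lemma bz_succ (m : ℕ) : 2 * ((m : ℤ_[5]) + 1) * bz (m + 1) = -(2 * m + 1) * bz m := by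
  have h := Nat.succ_mul_centralBinom_succ m
  have h' : ((m : ℤ_[5]) + 1) * (Nat.centralBinom (m + 1) : ℤ_[5]) =
      2 * (2 * m + 1) * Nat.centralBinom m := by exact_mod_cast h
  unfold bz
  rw [pow_succ]
  linear_combination (2 * (-i4) ^ m * (-i4)) * h' -
    (2 * m + 1) * (Nat.centralBinom m : ℤ_[5]) * (-i4) ^ m * four_i4

/-- reduction modulo `25` -/
noncomputable def φ : ℤ_[5] →+* ZMod (5 ^ 2) := PadicInt.toZModPow 2

lemma h25 : (25 : ZMod (5 ^ 2)) = 0 := by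
  have := ZMod.natCast_self (5 ^ 2)
  norm_num at this ⊢
  exact this

lemma ne_zero_nat {n : ℕ} (h : n ≠ 0) : (n : ℤ_[5]) ≠ 0 := by exact_mod_cast h

/-- the steps of the recursion in a block -/
lemma bz1 (m : ℕ) : 2 * (5 * (m : ℤ_[5]) + 1) * bz (5 * m + 1) = -(10 * m + 1) * bz (5 * m) := by
  have h := bz_succ (5 * m)
  push_cast at h
  linear_combination h

lemma bz2 (m : ℕ) : 2 * (5 * (m : ℤ_[5]) + 2) * bz (5 * m + 2) =
    -(10 * m + 3) * bz (5 * m + 1) := by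
  have h := bz_succ (5 * m + 1)
  push_cast at h
  linear_combination h

lemma bz3 (m : ℕ) : 2 * (5 * (m : ℤ_[5]) + 3) * bz (5 * m + 3) =
    -(10 * m + 5) * bz (5 * m + 2) := by
  have h := bz_succ (5 * m + 2)
  push_cast at h
  linear_combination h

lemma bz4 (m : ℕ) : 2 * (5 * (m : ℤ_[5]) + 4) * bz (5 * m + 4) =
    -(10 * m + 7) * bz (5 * m + 3) := by
  have h := bz_succ (5 * m + 3)
  push_cast at h
  linear_combination h

lemma bz5 (m : ℕ) : 2 * (5 * (m : ℤ_[5]) + 5) * bz (5 * m + 5) =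
    -(10 * m + 9) * bz (5 * m + 4) := by
  have h := bz_succ (5 * m + 4)
  push_cast at h
  linear_combination h

lemma bz_K2 (m : ℕ) : 4 * (5 * (m : ℤ_[5]) + 1) * (5 * m + 2) * bz (5 * m + 2) =
    (10 * m + 1) * (10 * m + 3) * bz (5 * m) := by
  linear_combination (2 * (5 * (m : ℤ_[5]) + 1)) * bz2 m - (10 * m + 3) * bz1 m

lemma bz_K4 (m : ℕ) : 16 * (5 * (m : ℤ_[5]) + 1) * (5 * m + 2) * (5 * m + 3) * (5 * m + 4) *
    bz (5 * m + 4) = 5 * (2 * m + 1) * (10 * m + 1) * (10 * m + 3) * (10 * m + 7) * bz (5 * m) := by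
  linear_combination (8 * (5 * (m : ℤ_[5]) + 1) * (5 * m + 2) * (5 * m + 3)) * bz4 m -
    (4 * (5 * (m : ℤ_[5]) + 1) * (5 * m + 2)) * (10 * m + 7) * bz3 m +
    (10 * m + 7) * (10 * m + 5) * bz_K2 m

lemma bz_K5 (m : ℕ) : 16 * (5 * (m : ℤ_[5]) + 1) * (5 * m + 2) * (5 * m + 3) * (5 * m + 4) *
    (5 * (2 * (m + 1)) * bz (5 * m + 5)) = -(10 * m + 9) *
      (5 * (2 * m + 1) * (10 * m + 1) * (10 * m + 3) * (10 * m + 7) * bz (5 * m)) := by
  linear_combination (16 * (5 * (m : ℤ_[5]) + 1) * (5 * m + 2) * (5 * m + 3) * (5 * m + 4)) * bz5 m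
    - (10 * m + 9) * bz_K4 m

lemma isUnit_K4 (m : ℕ) : IsUnit (16 * (5 * (m : ℤ_[5]) + 1) * (5 * m + 2) * (5 * m + 3) *
    (5 * m + 4)) := by
  have h1 := isUnit_nat (n := 16) (by norm_num)
  have h2 := isUnit_nat (n := 5 * m + 1) (by omega)
  have h3 := isUnit_nat (n := 5 * m + 2) (by omega)
  have h4 := isUnit_nat (n := 5 * m + 3) (by omega)
  have h5 := isUnit_nat (n := 5 * m + 4) (by omega)
  push_cast at h1 h2 h3 h4 h5
  exact (((h1.mul h2).mul h3).mul h4).mul h5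

lemma isUnit_K2 (m : ℕ) : IsUnit (4 * (5 * (m : ℤ_[5]) + 1) * (5 * m + 2)) := by
  have h1 := isUnit_nat (n := 4) (by norm_num)
  have h2 := isUnit_nat (n := 5 * m + 1) (by omega)
  have h3 := isUnit_nat (n := 5 * m + 2) (by omega)
  push_cast at h1 h2 h3
  exact (h1.mul h2).mul h3

lemma exists_theta (m : ℕ) : ∃ θ : ℤ_[5], bz (5 * m) = θ * bz m ∧
    φ θ = 1 - 5 * (m : ZMod (5 ^ 2)) := by
  induction m with
  | zero => exact ⟨1, by simp, by simp⟩
  | succ m ih =>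
    obtain ⟨θ, h1, h2⟩ := ih
    obtain ⟨θ', h3⟩ := (isUnit_K4 m).dvd
      (a := (10 * (m : ℤ_[5]) + 1) * (10 * m + 3) * (10 * m + 7) * (10 * m + 9) * θ)
    refine ⟨θ', ?_, ?_⟩
    · have h4 : (10 * ((m : ℤ_[5]) + 1)) ≠ 0 := by
        have := ne_zero_nat (n := 10 * (m + 1)) (by positivity)
        push_cast at this
        exact this
      have h5 := (isUnit_K4 m).ne_zero
      apply mul_left_cancel₀ (mul_ne_zero h4 h5)
      have h6 := bz_K5 m
      have h7 := bz_succ m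
      rw [show 5 * (m + 1) = 5 * m + 5 by ring]
      rw [h1] at h6
      linear_combination h6 - (5 * (10 * (m : ℤ_[5]) + 1) * (10 * m + 3) * (10 * m + 7) *
        (10 * m + 9) * θ) * h7 + (10 * ((m : ℤ_[5]) + 1)) * bz (m + 1) * h3
    · have h4 := congrArg φ h3
      simp only [map_mul, map_add, map_natCast, map_ofNat, map_one, h2] at h4
      push_cast
      generalize (m : ZMod (5 ^ 2)) = n at h4 ⊢
      generalize φ θ' = t at h4 ⊢
      linear_combination (-14) * h4 + (106 + 1151 * n + (-1120) * n ^ 2 + (-25200) * n ^ 3 +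
        (-50400) * n ^ 4 + (-28000) * n ^ 5 + (-215) * t + (-2240) * n * t +
        (-7840) * n ^ 2 * t + (-11200) * n ^ 3 * t + (-5600) * n ^ 4 * t) * h25

/-- the `theta` factor -/
noncomputable def theta (m : ℕ) : ℤ_[5] := (exists_theta m).choose

lemma bz_five (m : ℕ) : bz (5 * m) = theta m * bz m := (exists_theta m).choose_spec.1

lemma phi_theta (m : ℕ) : φ (theta m) = 1 - 5 * (m : ZMod (5 ^ 2)) :=
  (exists_theta m).choose_spec.2

/-- integrality of the two quotients -/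
lemma exists_uw (m : ℕ) : (∃ u : ℤ_[5], (12 * (m : ℤ_[5]) + 7) * u = bz m) ∧
    (∃ w : ℤ_[5], (12 * (m : ℤ_[5]) + 11) * w = (2 * m + 1) * bz m) := by
  induction m using Nat.strong_induction_on with
  | _ m ih =>
    constructor
    · by_cases hm : m % 5 = 4
      · obtain ⟨n, rfl⟩ : ∃ n, m = 5 * n + 4 := ⟨m / 5, by omega⟩
        obtain ⟨w, hw⟩ := (ih n (by omega)).2
        obtain ⟨u, hu⟩ := (isUnit_K4 n).dvd
          (a := (10 * (n : ℤ_[5]) + 1) * (10 * n + 3) * (10 * n + 7) * theta n * w)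
        refine ⟨u, ?_⟩
        apply mul_left_cancel₀ (isUnit_K4 n).ne_zero
        rw [bz_K4, bz_five]
        push_cast
        linear_combination (-(5 * (12 * (n : ℤ_[5]) + 11))) * hu +
          (5 * (10 * (n : ℤ_[5]) + 1) * (10 * n + 3) * (10 * n + 7) * theta n) * hw
      · have h := isUnit_nat (n := 12 * m + 7) (by omega)
        push_cast at h
        obtain ⟨u, hu⟩ := h.dvd (a := bz m)
        exact ⟨u, hu.symm⟩
    · by_cases hm : m % 5 = 2
      · obtain ⟨n, rfl⟩ : ∃ n, m = 5 * n + 2 := ⟨m / 5, by omega⟩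
        obtain ⟨u, hu⟩ := (ih n (by omega)).1
        obtain ⟨w, hw⟩ := (isUnit_K2 n).dvd
          (a := (2 * (n : ℤ_[5]) + 1) * (10 * n + 1) * (10 * n + 3) * theta n * u)
        refine ⟨w, ?_⟩
        apply mul_left_cancel₀ (isUnit_K2 n).ne_zero
        have h := bz_K2 n
        rw [bz_five] at h
        push_cast
        linear_combination (-(5 * (12 * (n : ℤ_[5]) + 7))) * hw +
          (5 * (2 * (n : ℤ_[5]) + 1) * (10 * n + 1) * (10 * n + 3) * theta n) * hu -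
          (10 * (n : ℤ_[5]) + 5) * h
      · have h := isUnit_nat (n := 12 * m + 11) (by omega)
        push_cast at h
        obtain ⟨w, hw⟩ := h.dvd (a := (2 * (m : ℤ_[5]) + 1) * bz m)
        exact ⟨w, hw.symm⟩

/-- `bz m / (12m+7)` -/
noncomputable def uz (m : ℕ) : ℤ_[5] := (exists_uw m).1.choose

/-- `(2m+1) bz m / (12m+11)` -/
noncomputable def wz' (m : ℕ) : ℤ_[5] := (exists_uw m).2.choose

lemma uz_spec (m : ℕ) : (12 * (m : ℤ_[5]) + 7) * uz m = bz m := (exists_uw m).1.choose_spec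

lemma wz_spec (m : ℕ) : (12 * (m : ℤ_[5]) + 11) * wz' m = (2 * m + 1) * bz m :=
  (exists_uw m).2.choose_spec

/-- `q = b - u + 6w` -/
noncomputable def qz (m : ℕ) : ℤ_[5] := bz m - uz m + 6 * wz' m

lemma qz_spec (m : ℕ) : (12 * (m : ℤ_[5]) + 7) * (12 * m + 11) * qz m =
    36 * (2 * m + 1) * (4 * m + 3) * bz m := by
  have h1 := uz_spec m
  have h2 := wz_spec m
  unfold qz
  linear_combination (-(12 * (m : ℤ_[5]) + 11)) * h1 + (6 * (12 * (m : ℤ_[5]) + 7)) * h2

lemma uz4 (m : ℕ) : 16 * (5 * (m : ℤ_[5]) + 1) * (5 * m + 2) * (5 * m + 3) * (5 * m + 4) *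
    uz (5 * m + 4) = (10 * m + 1) * (10 * m + 3) * (10 * m + 7) * theta m * wz' m := by
  have h0 : (5 * (12 * (m : ℤ_[5]) + 11)) ≠ 0 := by
    have := ne_zero_nat (n := 5 * (12 * m + 11)) (by positivity)
    push_cast at this
    exact this
  apply mul_left_cancel₀ h0
  have h1 := uz_spec (5 * m + 4)
  have h2 := wz_spec m
  have h3 := bz_K4 m
  rw [bz_five] at h3
  push_cast at h1
  linear_combination (16 * (5 * (m : ℤ_[5]) + 1) * (5 * m + 2) * (5 * m + 3) * (5 * m + 4)) * h1 +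
    h3 - (5 * (10 * (m : ℤ_[5]) + 1) * (10 * m + 3) * (10 * m + 7) * theta m) * h2

lemma wz2 (m : ℕ) : 4 * (5 * (m : ℤ_[5]) + 1) * (5 * m + 2) * wz' (5 * m + 2) =
    (2 * m + 1) * (10 * m + 1) * (10 * m + 3) * theta m * uz m := by
  have h0 : (5 * (12 * (m : ℤ_[5]) + 7)) ≠ 0 := by
    have := ne_zero_nat (n := 5 * (12 * m + 7)) (by positivity)
    push_cast at this
    exact this
  apply mul_left_cancel₀ h0
  have h1 := wz_spec (5 * m + 2)
  have h2 := uz_spec m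
  have h3 := bz_K2 m
  rw [bz_five] at h3
  push_cast at h1
  linear_combination (4 * (5 * (m : ℤ_[5]) + 1) * (5 * m + 2)) * h1 +
    (5 * (2 * (m : ℤ_[5]) + 1)) * h3 -
    (5 * (2 * (m : ℤ_[5]) + 1) * (10 * (m : ℤ_[5]) + 1) * (10 * m + 3) * theta m) * h2

/-- the block identities for `q` modulo `25` -/
lemma q_block (m : ℕ) :
    φ (qz (5 * m)) + φ (qz (5 * m + 1)) = (10 + 15 * (m : ZMod (5 ^ 2))) * φ (bz m) ∧
    φ (qz (5 * m)) + φ (qz (5 * m + 1)) + φ (qz (5 * m + 2)) + φ (qz (5 * m + 3)) +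
      φ (qz (5 * m + 4)) = 11 * φ (qz m) + (10 + 15 * (m : ZMod (5 ^ 2))) * φ (bz m) := by
  have hu := congrArg φ (uz_spec m)
  have hw := congrArg φ (wz_spec m)
  have h0 := congrArg φ (bz_five m)
  have h1 := congrArg φ (bz1 m)
  have h2 := congrArg φ (bz2 m)
  have h3 := congrArg φ (bz3 m)
  have h4 := congrArg φ (bz4 m)
  have hu0 := congrArg φ (uz_spec (5 * m))
  have hu1 := congrArg φ (uz_spec (5 * m + 1))
  have hu2 := congrArg φ (uz_spec (5 * m + 2))
  have hu3 := congrArg φ (uz_spec (5 * m + 3))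
  have hu4 := congrArg φ (uz4 m)
  have hw0 := congrArg φ (wz_spec (5 * m))
  have hw1 := congrArg φ (wz_spec (5 * m + 1))
  have hw2 := congrArg φ (wz2 m)
  have hw3 := congrArg φ (wz_spec (5 * m + 3))
  have hw4 := congrArg φ (wz_spec (5 * m + 4))
  simp only [map_mul, map_add, map_neg, map_natCast, map_ofNat, map_one, phi_theta,
    Nat.cast_add, Nat.cast_mul, Nat.cast_ofNat, Nat.cast_one] at hu hw h0 h1 h2 h3 h4
  simp only [map_mul, map_add, map_neg, map_natCast, map_ofNat, map_one, phi_theta,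
    Nat.cast_add, Nat.cast_mul, Nat.cast_ofNat, Nat.cast_one] at hu0 hu1 hu2 hu3 hu4
  simp only [map_mul, map_add, map_neg, map_natCast, map_ofNat, map_one, phi_theta,
    Nat.cast_add, Nat.cast_mul, Nat.cast_ofNat, Nat.cast_one] at hw0 hw1 hw2 hw3 hw4
  have := block h25 (m : ZMod (5 ^ 2)) (φ (bz m)) (φ (uz m)) (φ (wz' m)) (φ (bz (5 * m)))
    (φ (bz (5 * m + 1))) (φ (bz (5 * m + 2))) (φ (bz (5 * m + 3))) (φ (bz (5 * m + 4)))
    (φ (uz (5 * m))) (φ (uz (5 * m + 1))) (φ (uz (5 * m + 2))) (φ (uz (5 * m + 3)))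
    (φ (uz (5 * m + 4)))
    (φ (wz' (5 * m))) (φ (wz' (5 * m + 1))) (φ (wz' (5 * m + 2))) (φ (wz' (5 * m + 3)))
    (φ (wz' (5 * m + 4))) hu hw h0 h1 h2 h3 h4
    (by linear_combination hu0) (by linear_combination hu1) (by linear_combination hu2)
    (by linear_combination hu3) (by linear_combination hu4) (by linear_combination hw0)
    (by linear_combination hw1) (by linear_combination hw2) (by linear_combination hw3)
    (by linear_combination hw4)
  simpa only [qz, map_add, map_sub, map_mul, map_ofNat] using this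

end Pool.Agent.H94.Sun
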