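import Mathlib
import Pool.Agent.H94.Sun.Padic

/-!
# Partial sums modulo `25`
-/

namespace Pool.Agent.H94.Sun

open Finset

lemma five_b_aux {R : Type*} [CommRing R] (h25 : (25 : R) = 0) (m b b0 b1 b2 b3 b4 : R)
    (h0 : b0 = (1 - 5 * m) * b)
    (h1 : 2 * (5 * m + 1) * b1 = -(10 * m + 1) * b0)
    (h2 : 2 * (5 * m + 2) * b2 = -(10 * m + 3) * b1)
    (h3 : 2 * (5 * m + 3) * b3 = -(10 * m + 5) * b2)
    (h4 : 2 * (5 * m + 4) * b4 = -(10 * m + 7) * b3) :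
    5 * b0 = 5 * b ∧ 5 * b1 = 10 * b ∧ 5 * b2 = 5 * b ∧ 5 * b3 = 0 * b ∧ 5 * b4 = 0 * b := by
  have eb0 : 5 * b0 = 5 * b := by linear_combination 5 * h0 - m * b * h25
  have eb1 : 5 * b1 = 10 * b := by
    linear_combination 15 * h1 + 3 * ((-1) + (-10) * m) * eb0 + ((-1) * b + (-1) * b1 + (-6) * b * m + (-6) * b1 * m) * h25
  have eb2 : 5 * b2 = 5 * b := by
    linear_combination 20 * h2 + 4 * ((-3) + (-10) * m) * eb1 + ((-5) * b + (-3) * b2 + (-16) * b * m + (-8) * b2 * m) * h25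
  have eb3 : 5 * b3 = 0 * b := by
    linear_combination 5 * h3 + 1 * ((-5) + (-10) * m) * eb2 + ((-1) * b + (-1) * b3 + (-2) * b * m + (-2) * b3 * m) * h25
  have eb4 : 5 * b4 = 0 * b := by
    linear_combination 10 * h4 + 2 * ((-7) + (-10) * m) * eb3 + ((-3) * b4 + (-4) * b4 * m) * h25
  exact ⟨eb0, eb1, eb2, eb3, eb4⟩

lemma five_b (m : ℕ) : 5 * φ (bz (5 * m)) = 5 * φ (bz m) ∧
    5 * φ (bz (5 * m + 1)) = 10 * φ (bz m) ∧ 5 * φ (bz (5 * m + 2)) = 5 * φ (bz m) ∧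
    5 * φ (bz (5 * m + 3)) = 0 ∧ 5 * φ (bz (5 * m + 4)) = 0 := by
  have h0 := congrArg φ (bz_five m)
  have h1 := congrArg φ (bz1 m)
  have h2 := congrArg φ (bz2 m)
  have h3 := congrArg φ (bz3 m)
  have h4 := congrArg φ (bz4 m)
  simp only [map_mul, map_add, map_neg, map_natCast, map_ofNat, map_one, phi_theta]
    at h0 h1 h2 h3 h4
  have := five_b_aux h25 _ _ _ _ _ _ _ h0 h1 h2 h3 h4
  simpa only [zero_mul] using this

/-- partial sums of `q` -/
noncomputable def Q (M : ℕ) : ZMod (5 ^ 2) := ∑ m ∈ range M, φ (qz m)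

/-- partial sums of the correction -/
noncomputable def Y (M : ℕ) : ZMod (5 ^ 2) :=
  ∑ m ∈ range M, (10 + 15 * (m : ZMod (5 ^ 2))) * φ (bz m)

lemma Q_zero : Q 0 = 0 := by simp [Q]

lemma Q_succ (M : ℕ) : Q (M + 1) = Q M + φ (qz M) := by simp [Q, sum_range_succ]

lemma Y_zero : Y 0 = 0 := by simp [Y]

lemma Y_succ (M : ℕ) : Y (M + 1) = Y M + (10 + 15 * (M : ZMod (5 ^ 2))) * φ (bz M) := by
  simp [Y, sum_range_succ]

lemma Y_block (M : ℕ) : Y (5 * M + 2) = Y (5 * M) + 10 * φ (bz M) ∧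
    Y (5 * (M + 1)) = Y (5 * M) := by
  obtain ⟨h0, h1, h2, h3, h4⟩ := five_b M
  have e0 := Y_succ (5 * M)
  have e1 := Y_succ (5 * M + 1)
  have e2 := Y_succ (5 * M + 2)
  have e3 := Y_succ (5 * M + 3)
  have e4 := Y_succ (5 * M + 4)
  rw [show 5 * (M + 1) = 5 * M + 4 + 1 by ring]
  have h25 := h25
  push_cast at e0 e1 e2 e3 e4
  constructor
  · linear_combination e0 + e1 + (2 + 15 * (M : ZMod (5 ^ 2))) * h0 +
      (5 + 15 * (M : ZMod (5 ^ 2))) * h1 + (9 * M + 2) * φ (bz M) * h25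
  · linear_combination e0 + e1 + e2 + e3 + e4 + (2 + 15 * (M : ZMod (5 ^ 2))) * h0 +
      (5 + 15 * (M : ZMod (5 ^ 2))) * h1 + (8 + 15 * (M : ZMod (5 ^ 2))) * h2 +
      (11 + 15 * (M : ZMod (5 ^ 2))) * h3 + (14 + 15 * (M : ZMod (5 ^ 2))) * h4 +
      (12 * M + 4) * φ (bz M) * h25

lemma Y_five (M : ℕ) : Y (5 * M) = 0 := by
  induction M with
  | zero => exact Y_zero
  | succ M ih => rw [(Y_block M).2, ih]

lemma Y_five_two (M : ℕ) : Y (5 * M + 2) = 10 * φ (bz M) := by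
  rw [(Y_block M).1, Y_five, zero_add]

lemma Q_five (M : ℕ) : Q (5 * M) = 11 * Q M + Y M := by
  induction M with
  | zero => simp [Q_zero, Y_zero]
  | succ M ih =>
    obtain ⟨-, h⟩ := q_block M
    have e0 := Q_succ (5 * M)
    have e1 := Q_succ (5 * M + 1)
    have e2 := Q_succ (5 * M + 2)
    have e3 := Q_succ (5 * M + 3)
    have e4 := Q_succ (5 * M + 4)
    have e5 := Q_succ M
    have e6 := Y_succ M
    rw [show 5 * (M + 1) = 5 * M + 4 + 1 by ring]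
    linear_combination e0 + e1 + e2 + e3 + e4 + h + ih - 11 * e5 - e6

lemma Q_five_two (M : ℕ) : Q (5 * M + 2) = 11 * Q M + Y M +
    (10 + 15 * (M : ZMod (5 ^ 2))) * φ (bz M) := by
  obtain ⟨h, -⟩ := q_block M
  have e0 := Q_succ (5 * M)
  have e1 := Q_succ (5 * M + 1)
  have e2 := Q_five M
  linear_combination e0 + e1 + e2 + h

/-- `K a = (5^a - 1)/2` -/
def K : ℕ → ℕ
  | 0 => 0
  | a + 1 => 5 * K a + 2

lemma two_K (a : ℕ) : 2 * K a + 1 = 5 ^ a := by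
  induction a with
  | zero => rfl
  | succ a ih => rw [K, pow_succ]; omega

lemma b_K (a : ℕ) : 5 * φ (bz (K a)) = 5 := by
  induction a with
  | zero => simp [K, bz_zero]
  | succ a ih => rw [K, (five_b (K a)).2.2.1, ih]

lemma Q_K (a : ℕ) : Q (K (a + 1)) = 10 := by
  have h25 := h25
  induction a with
  | zero =>
    rw [K, Q_five_two, K, Q_zero, Y_zero, bz_zero]
    simp
  | succ a ih =>
    have hb := b_K a
    have hb' := b_K (a + 1)
    rw [K, Q_five_two, ih, K, Y_five_two]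
    rw [K] at hb'
    push_cast
    linear_combination 2 * hb + (8 + 15 * (K a : ZMod (5 ^ 2))) * hb' +
      (6 + 3 * (K a : ZMod (5 ^ 2))) * h25

lemma five_Y (M : ℕ) : 5 * Y M = 0 := by
  unfold Y
  rw [mul_sum]
  refine sum_eq_zero fun m _ => ?_
  linear_combination (2 + 3 * (m : ZMod (5 ^ 2))) * φ (bz m) * h25

lemma five_Q_five (M : ℕ) : 5 * Q (5 * M) = 5 * Q M := by
  rw [Q_five]
  linear_combination 2 * Q M * h25 + five_Y M

lemma five_Q_five_two (M : ℕ) : 5 * Q (5 * M + 2) = 5 * Q M := by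
  rw [Q_five_two]
  linear_combination 2 * Q M * h25 + five_Y M + (2 + 3 * (M : ZMod (5 ^ 2))) * φ (bz M) * h25

end Pool.Agent.H94.Sun
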