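import Mathlib
import Pool.Agent.H94.Sun.Sums
import Pool.Agent.H94.Sun.Exact

/-!
# The weights `c_N(n)`, `N = 5^(a+1)`, modulo `25`
-/

namespace Pool.Agent.H94.Sun

open Finset

lemma exists_e (a i : ℕ) (hi : 1 ≤ i) (hi' : i < 5 ^ (a + 1)) :
    ∃ e : ℤ_[5], ((5 : ℤ_[5]) ^ (a + 1) + i) * e = 5 ^ (a + 1) - i ∧
      (¬ 5 ^ a ∣ i → φ e = -1) ∧
      (∀ j : ℕ, i = j * 5 ^ a → (5 + (j : ZMod (5 ^ 2))) * φ e = 5 - j) := by
  obtain ⟨v, i', hi5, rfl⟩ := Nat.exists_eq_pow_mul_and_not_dvd (n := i) (by omega) 5 (by norm_num)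
  have hi0 : 0 < i' := Nat.pos_of_ne_zero (by rintro rfl; simp at hi5)
  have hva : v ≤ a := by
    have h1 : 5 ^ v < 5 ^ (a + 1) := lt_of_le_of_lt (Nat.le_mul_of_pos_right _ hi0) hi'
    have := (Nat.pow_lt_pow_iff_right (by norm_num : 1 < 5)).1 h1
    omega
  obtain ⟨s, hs⟩ : ∃ s, a + 1 = v + s := ⟨a + 1 - v, by omega⟩
  have hu : IsUnit ((5 : ℤ_[5]) ^ s + i') := by
    have := isUnit_nat (n := 5 ^ s + i') (by
      obtain ⟨s', rfl⟩ : ∃ s', s = s' + 1 := ⟨s - 1, by omega⟩
      rw [pow_succ]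
      omega)
    push_cast at this
    exact this
  obtain ⟨e, he⟩ := hu.dvd (a := (5 : ℤ_[5]) ^ s - i')
  refine ⟨e, ?_, ?_, ?_⟩
  · rw [hs, pow_add]
    push_cast
    linear_combination (-(5 : ℤ_[5]) ^ v) * he
  · intro h
    have hva' : v < a := by
      rcases Nat.lt_or_ge v a with h1 | h1
      · exact h1
      · exact absurd (Dvd.dvd.mul_right (pow_dvd_pow 5 h1) i') h
    obtain ⟨s', rfl⟩ : ∃ s', s = 2 + s' := ⟨s - 2, by omega⟩
    have h1 := congrArg φ he
    simp only [map_mul, map_add, map_sub, map_natCast, map_ofNat, map_pow] at h1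
    have h2 : (5 : ZMod (5 ^ 2)) ^ (2 + s') = 0 := by
      rw [pow_add]
      linear_combination (5 : ZMod (5 ^ 2)) ^ s' * h25
    rw [h2] at h1
    have h3 : IsUnit (i' : ZMod (5 ^ 2)) := by
      have := (isUnit_nat (n := i') (fun h => hi5 (Nat.dvd_of_mod_eq_zero h))).map φ
      simpa using this
    apply h3.mul_left_cancel
    linear_combination -h1
  · intro j hj
    have hva' : v = a := by
      by_contra hne
      obtain ⟨r, hr⟩ : ∃ r, a = v + (r + 1) := ⟨a - v - 1, by omega⟩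
      rw [hr] at hj
      have h1 : 5 ^ v * i' = 5 ^ v * (5 * (j * 5 ^ r)) := by rw [hj]; ring
      have h2 := Nat.eq_of_mul_eq_mul_left (by positivity) h1
      exact hi5 ⟨_, h2⟩
    subst hva'
    have hs1 : s = 1 := by omega
    subst hs1
    have hji : i' = j := by
      have h1 : 5 ^ v * i' = 5 ^ v * j := by rw [hj]; ring
      exact Nat.eq_of_mul_eq_mul_left (by positivity) h1
    subst hji
    have h1 := congrArg φ he
    simp only [map_mul, map_add, map_sub, map_natCast, map_ofNat, map_pow, pow_one] at h1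
    exact h1.symm

/-- `(N-i)/(N+i)` for `N = 5^(a+1)` as a `5`-adic integer -/
noncomputable def ez (a i : ℕ) : ℤ_[5] :=
  if h : 1 ≤ i ∧ i < 5 ^ (a + 1) then (exists_e a i h.1 h.2).choose else 0

lemma ez_spec {a i : ℕ} (hi : 1 ≤ i) (hi' : i < 5 ^ (a + 1)) :
    ((5 : ℤ_[5]) ^ (a + 1) + i) * ez a i = 5 ^ (a + 1) - i ∧
      (¬ 5 ^ a ∣ i → φ (ez a i) = -1) ∧
      (∀ j : ℕ, i = j * 5 ^ a → (5 + (j : ZMod (5 ^ 2))) * φ (ez a i) = 5 - j) := by
  unfold ez
  rw [dif_pos ⟨hi, hi'⟩]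
  exact (exists_e a i hi hi').choose_spec

/-- `c_N(n)` as a `5`-adic integer -/
noncomputable def Cz (a n : ℕ) : ℤ_[5] := ∏ i ∈ range n, ez a (i + 1)

lemma Cz_zero (a : ℕ) : Cz a 0 = 1 := by simp [Cz]

lemma Cz_succ (a n : ℕ) : Cz a (n + 1) = Cz a n * ez a (n + 1) := by simp [Cz, prod_range_succ]

/-- the values of the weights -/
def hh : ℕ → ZMod (5 ^ 2)
  | 0 => 1
  | 1 => 16
  | 2 => 11
  | 3 => 16
  | _ => 1

lemma phi_Cz (a n : ℕ) (hn : n < 5 ^ (a + 1)) : φ (Cz a n) = (-1) ^ n * hh (n / 5 ^ a) := by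
  induction n with
  | zero => simp [Cz_zero, hh]
  | succ n ih =>
    have ih' := ih (by omega)
    obtain ⟨-, h1, h2⟩ := ez_spec (a := a) (i := n + 1) (by omega) hn
    rw [Cz_succ, map_mul, ih', pow_succ (-1 : ZMod (5 ^ 2)) n]
    by_cases hd : 5 ^ a ∣ n + 1
    · rw [Nat.succ_div_of_dvd hd]
      obtain ⟨j, hj⟩ := hd
      have hj' : n + 1 = j * 5 ^ a := by rw [hj, mul_comm]
      have h3 := h2 j hj'
      have hj5 : j < 5 := by
        rw [hj', pow_succ, mul_comm (5 ^ a) 5] at hn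
        exact lt_of_mul_lt_mul_right hn (by positivity)
      have hj0 : j ≠ 0 := by rintro rfl; omega
      have h4 : n / 5 ^ a + 1 = j := by
        rw [← Nat.succ_div_of_dvd ⟨j, hj⟩, hj]
        exact Nat.mul_div_cancel_left _ (by positivity)
      have h5 : n / 5 ^ a = j - 1 := by omega
      rw [h5]
      have h25 := h25
      generalize φ (ez a (n + 1)) = x at h3
      interval_cases j
      · exact absurd rfl hj0
      · simp only [hh, Nat.sub_self, Nat.reduceAdd]
        push_cast at h3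
        linear_combination ((-1) ^ n * 21) * h3 + ((-1) ^ n * (-5 * x + 4)) * h25
      · simp only [hh, Nat.add_one_sub_one, Nat.reduceAdd]
        push_cast at h3
        linear_combination ((-1) ^ n * 16 * 18) * h3 + ((-1) ^ n * (-80 * x + 35)) * h25
      · simp only [hh, Nat.reduceSub, Nat.reduceAdd]
        push_cast at h3
        linear_combination ((-1) ^ n * 11 * 22) * h3 + ((-1) ^ n * (-77 * x + 20)) * h25
      · simp only [hh, Nat.reduceSub, Nat.reduceAdd]
        push_cast at h3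
        linear_combination ((-1) ^ n * 16 * 14) * h3 + ((-1) ^ n * (-80 * x + 9)) * h25
    · rw [Nat.succ_div_of_not_dvd hd, h1 hd]
      ring

lemma split_step {R : Type*} [CommRing R] (G F : ℕ → R) (p q : ℕ) (hpq : p ≤ q) (g : R)
    (h : ∀ m, p ≤ m → m < q → G m = g) :
    ∑ m ∈ range q, G m * F m = ∑ m ∈ range p, G m * F m +
      g * (∑ m ∈ range q, F m - ∑ m ∈ range p, F m) := by
  induction q, hpq using Nat.le_induction with
  | base => ring
  | succ q hq ih =>
    rw [sum_range_succ, sum_range_succ (f := F), ih (fun m h1 h2 => h m h1 (by omega)),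
      h q hq (by omega)]
    ring

lemma five_Q_pow (a : ℕ) : 5 * Q (5 ^ a) = 5 * Q 1 := by
  induction a with
  | zero => simp
  | succ a ih => rw [show (5 : ℕ) ^ (a + 1) = 5 * 5 ^ a by ring, five_Q_five, ih]

lemma five_Q_two_pow (a : ℕ) : 5 * Q (2 * 5 ^ a) = 0 := by
  induction a with
  | zero =>
    have h := Q_K 0
    rw [K, K] at h
    simp only [pow_zero, mul_one]
    simp only [mul_zero, zero_add] at h
    rw [h]
    linear_combination 2 * h25
  | succ a ih => rw [show (2 : ℕ) * 5 ^ (a + 1) = 5 * (2 * 5 ^ a) by ring, five_Q_five, ih]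

lemma five_Q_K (a : ℕ) : 5 * Q (K a) = 0 := by
  induction a with
  | zero => simp [K, Q_zero]
  | succ a ih => rw [K, five_Q_five_two, ih]

lemma five_Q_three (a : ℕ) : 5 * Q (3 * K a + 1) = 5 * Q 1 := by
  induction a with
  | zero => simp [K]
  | succ a ih =>
    rw [K, show 3 * (5 * K a + 2) + 1 = 5 * (3 * K a + 1) + 2 by ring, five_Q_five_two, ih]

lemma Q_def (M : ℕ) : ∑ m ∈ range M, φ (qz m) = Q M := rfl

/-- the weighted sum -/
noncomputable def E (a : ℕ) : ℤ_[5] := ∑ m ∈ range (K (a + 1)), Cz a (2 * m + 1) * qz m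

lemma phi_E (a : ℕ) : φ (E a) = 15 := by
  have hL := two_K a
  have hL' : 5 ^ (a + 1) = 5 * 5 ^ a := by ring
  have hpos : 0 < 5 ^ a := by positivity
  have hG : ∀ m, 2 * m + 1 < 5 ^ (a + 1) → φ (Cz a (2 * m + 1)) = -hh ((2 * m + 1) / 5 ^ a) := by
    intro m hm
    rw [phi_Cz a _ hm, pow_succ (-1 : ZMod (5 ^ 2)) (2 * m), pow_mul]
    simp
  unfold E
  rw [map_sum]
  simp only [map_mul]
  have s1 := split_step (fun m => φ (Cz a (2 * m + 1))) (fun m => φ (qz m)) 0 (K a) (by omega)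
    (-hh 0) (fun m h1 h2 => by
      show φ (Cz a (2 * m + 1)) = _
      rw [hG m (by omega)]
      congr 2
      exact Nat.div_eq_of_lt (by omega))
  have s2 := split_step (fun m => φ (Cz a (2 * m + 1))) (fun m => φ (qz m)) (K a) (2 * K a + 1)
    (by omega) (-hh 1) (fun m h1 h2 => by
      show φ (Cz a (2 * m + 1)) = _
      rw [hG m (by omega)]
      congr 2
      exact Nat.div_eq_of_lt_le (by omega) (by omega))
  have s3 := split_step (fun m => φ (Cz a (2 * m + 1))) (fun m => φ (qz m)) (2 * K a + 1)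
    (3 * K a + 1) (by omega) (-hh 2) (fun m h1 h2 => by
      show φ (Cz a (2 * m + 1)) = _
      rw [hG m (by omega)]
      congr 2
      exact Nat.div_eq_of_lt_le (by omega) (by omega))
  have s4 := split_step (fun m => φ (Cz a (2 * m + 1))) (fun m => φ (qz m)) (3 * K a + 1)
    (4 * K a + 2) (by omega) (-hh 3) (fun m h1 h2 => by
      show φ (Cz a (2 * m + 1)) = _
      rw [hG m (by omega)]
      congr 2
      exact Nat.div_eq_of_lt_le (by omega) (by omega))
  have s5 := split_step (fun m => φ (Cz a (2 * m + 1))) (fun m => φ (qz m)) (4 * K a + 2)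
    (5 * K a + 2) (by omega) (-hh 4) (fun m h1 h2 => by
      show φ (Cz a (2 * m + 1)) = _
      rw [hG m (by omega)]
      congr 2
      exact Nat.div_eq_of_lt_le (by omega) (by omega))
  have e1 := five_Q_pow a
  have e2 := five_Q_two_pow a
  have e3 := five_Q_K a
  have e4 := five_Q_three a
  have e5 := Q_K a
  rw [← hL] at e1 e2
  rw [show 2 * (2 * K a + 1) = 4 * K a + 2 by ring] at e2
  rw [K] at e5 ⊢
  simp only [range_zero, sum_empty, sub_zero, zero_add, hh] at s1 s2 s3 s4 s5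
  simp only [Q_def] at s1 s2 s3 s4 s5
  have h25 := h25
  linear_combination s5 + s4 + s3 + s2 + s1 - e5 - 3 * e2 + e4 - e1 + 3 * e3 - h25

end Pool.Agent.H94.Sun
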