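import Mathlib
import Pool.Agent.H94.Sun.Weights

/-!
# The factor `t (5^a)` and the conclusion
-/

namespace Pool.Agent.H94.Sun

open Finset

lemma cast_i4 : ((i4 : ℤ_[5]) : ℚ_[5]) = 1 / 4 := by
  have h : ((4 * i4 : ℤ_[5]) : ℚ_[5]) = 1 := by rw [four_i4]; simp
  rw [PadicInt.coe_mul] at h
  have h' : (4 : ℚ_[5]) * (i4 : ℚ_[5]) = 1 := h
  linear_combination (1 / 4 : ℚ_[5]) * h'

lemma cast_b (m : ℕ) : ((b m : ℚ) : ℚ_[5]) = ((bz m : ℤ_[5]) : ℚ_[5]) := by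
  unfold b bz
  rw [PadicInt.coe_mul, PadicInt.coe_pow, PadicInt.coe_neg, cast_i4]
  push_cast
  congr 2
  norm_num

lemma cast_c (a n : ℕ) (hn : n < 5 ^ (a + 1)) :
    ((c (5 ^ (a + 1)) n : ℚ) : ℚ_[5]) = ((Cz a n : ℤ_[5]) : ℚ_[5]) := by
  induction n with
  | zero => simp [c_zero, Cz_zero]
  | succ n ih =>
    have ih' := ih (by omega)
    have h1 := c_succ (5 ^ (a + 1)) n
    have h2 := (ez_spec (a := a) (i := n + 1) (by omega) hn).1
    have h3 := congrArg (fun x : ℤ_[5] => (x : ℚ_[5])) h2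
    have h4 := congrArg (fun x : ℚ => (x : ℚ_[5])) h1
    simp only [PadicInt.coe_mul, PadicInt.coe_add, PadicInt.coe_sub, PadicInt.coe_pow,
      PadicInt.coe_natCast] at h3
    push_cast at h3 h4
    rw [Cz_succ, PadicInt.coe_mul, ← ih']
    have h5 : ((5 : ℚ_[5]) ^ (a + 1) + (n + 1)) ≠ 0 := by
      have : ((5 ^ (a + 1) + (n + 1) : ℕ) : ℚ_[5]) ≠ 0 := by
        exact_mod_cast (by positivity : (5 ^ (a + 1) + (n + 1) : ℕ) ≠ 0)
      push_cast at this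
      exact this
    apply mul_left_cancel₀ h5
    have h6 : ((5 : ℤ_[5]) : ℚ_[5]) = 5 := rfl
    rw [h6] at h3
    linear_combination h4 - ((c (5 ^ (a + 1)) n : ℚ) : ℚ_[5]) * h3

lemma cast_D (a : ℕ) : ((36 * D (5 ^ (a + 1)) (5 ^ (a + 1)) : ℚ) : ℚ_[5]) =
    ((E a : ℤ_[5]) : ℚ_[5]) := by
  have hK := two_K (a + 1)
  have h1 : D (5 ^ (a + 1)) (5 ^ (a + 1)) = D (5 ^ (a + 1)) (K (a + 1)) := by
    unfold D
    symm
    apply sum_subset
    · intro x hx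
      rw [mem_range] at hx ⊢
      omega
    · intro x _ hx
      rw [mem_range] at hx
      rw [c_eq_zero (by omega) (by omega), zero_mul]
  rw [h1]
  unfold D E
  rw [mul_sum]
  rw [Rat.cast_sum, PadicInt.coe_sum]
  refine sum_congr rfl fun m hm => ?_
  rw [mem_range] at hm
  have h2 := cast_c a (2 * m + 1) (by omega)
  have h3 := cast_b m
  rw [PadicInt.coe_mul, ← h2]
  have h4 := congrArg (fun x : ℤ_[5] => (x : ℚ_[5])) (qz_spec m)
  simp only [PadicInt.coe_mul, PadicInt.coe_add, PadicInt.coe_natCast, PadicInt.coe_one] at h4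
  rw [← h3] at h4
  push_cast at h4 ⊢
  have e1 : ((12 : ℤ_[5]) : ℚ_[5]) = 12 := rfl
  have e2 : ((7 : ℤ_[5]) : ℚ_[5]) = 7 := rfl
  have e3 : ((11 : ℤ_[5]) : ℚ_[5]) = 11 := rfl
  have e4 : ((36 : ℤ_[5]) : ℚ_[5]) = 36 := rfl
  have e5 : ((2 : ℤ_[5]) : ℚ_[5]) = 2 := rfl
  have e6 : ((4 : ℤ_[5]) : ℚ_[5]) = 4 := rfl
  have e7 : ((3 : ℤ_[5]) : ℚ_[5]) = 3 := rfl
  rw [e1, e2, e3, e4, e5, e6, e7] at h4
  have n1 : (12 * (m : ℚ_[5]) + 7) ≠ 0 := by
    have : ((12 * m + 7 : ℕ) : ℚ_[5]) ≠ 0 := by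
      exact_mod_cast (by positivity : (12 * m + 7 : ℕ) ≠ 0)
    push_cast at this
    exact this
  have n2 : (12 * (m : ℚ_[5]) + 11) ≠ 0 := by
    have : ((12 * m + 11 : ℕ) : ℚ_[5]) ≠ 0 := by
      exact_mod_cast (by positivity : (12 * m + 11 : ℕ) ≠ 0)
    push_cast at this
    exact this
  have h5 : ((qz m : ℤ_[5]) : ℚ_[5]) = 36 * (2 * m + 1) * (4 * m + 3) * ((b m : ℚ) : ℚ_[5]) /
      ((12 * m + 7) * (12 * m + 11)) := by
    rw [eq_div_iff (mul_ne_zero n1 n2)]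
    linear_combination h4
  rw [h5]
  field_simp

/-- the block recursion for `t` -/
lemma t_block (m : ℕ) : 72 ^ 5 * (25 * ((m : ℚ) + 1) ^ 2) *
    ((5 * m + 1) * (5 * m + 2) * (5 * m + 3) * (5 * m + 4)) ^ 2 * t (5 * m + 5) =
    25 * ((6 * m + 1) * (6 * m + 5)) * ((30 * m + 1) * (30 * m + 7) * (30 * m + 13) *
      (30 * m + 19) * (30 * m + 11) * (30 * m + 17) * (30 * m + 23) * (30 * m + 29)) *
      t (5 * m) := by
  have h0 := t_succ (5 * m)
  have h1 := t_succ (5 * m + 1)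
  have h2 := t_succ (5 * m + 2)
  have h3 := t_succ (5 * m + 3)
  have h4 := t_succ (5 * m + 4)
  push_cast at h0 h1 h2 h3 h4
  have e0 : t (5 * m + 1) = (30 * m + 1) * (5 * (6 * m + 1)) * t (5 * m) /
      (72 * (5 * m + 1) ^ 2) := by
    rw [eq_div_iff (by positivity)]
    linear_combination h0
  have e1 : t (5 * m + 2) = (30 * m + 7) * (30 * m + 11) * t (5 * m + 1) /
      (72 * (5 * m + 2) ^ 2) := by
    rw [eq_div_iff (by positivity)]
    linear_combination h1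
  have e2 : t (5 * m + 3) = (30 * m + 13) * (30 * m + 17) * t (5 * m + 2) /
      (72 * (5 * m + 3) ^ 2) := by
    rw [eq_div_iff (by positivity)]
    linear_combination h2
  have e3 : t (5 * m + 4) = (30 * m + 19) * (30 * m + 23) * t (5 * m + 3) /
      (72 * (5 * m + 4) ^ 2) := by
    rw [eq_div_iff (by positivity)]
    linear_combination h3
  have e4 : t (5 * m + 5) = (5 * (6 * m + 5)) * (30 * m + 29) * t (5 * m + 4) /
      (72 * (5 * m + 5) ^ 2) := by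
    rw [eq_div_iff (by positivity)]
    linear_combination h4
  rw [e4, e3, e2, e1, e0]
  field_simp

lemma t_rel (m : ℕ) : ∃ ε : ℤ_[5], ((t (5 * m) : ℚ) : ℚ_[5]) = (ε : ℚ_[5]) * ((t m : ℚ) : ℚ_[5]) ∧
    5 * φ ε = 5 := by
  induction m with
  | zero => exact ⟨1, by simp, by simp⟩
  | succ m ih =>
    obtain ⟨ε, h1, h2⟩ := ih
    have hu : IsUnit ((72 : ℤ_[5]) ^ 4 * ((5 * (m : ℤ_[5]) + 1) * (5 * m + 2) * (5 * m + 3) *
        (5 * m + 4)) ^ 2) := by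
      have h1 := isUnit_nat (n := 72) (by norm_num)
      have h2 := isUnit_nat (n := 5 * m + 1) (by omega)
      have h3 := isUnit_nat (n := 5 * m + 2) (by omega)
      have h4 := isUnit_nat (n := 5 * m + 3) (by omega)
      have h5 := isUnit_nat (n := 5 * m + 4) (by omega)
      push_cast at h1 h2 h3 h4 h5
      exact (h1.pow 4).mul ((((h2.mul h3).mul h4).mul h5).pow 2)
    obtain ⟨ε', h3⟩ := hu.dvd (a := ((30 * (m : ℤ_[5]) + 1) * (30 * m + 7) * (30 * m + 13) *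
      (30 * m + 19) * (30 * m + 11) * (30 * m + 17) * (30 * m + 23) * (30 * m + 29)) * ε)
    refine ⟨ε', ?_, ?_⟩
    · have h4 := congrArg (fun x : ℚ => (x : ℚ_[5])) (t_block m)
      have h5 := congrArg (fun x : ℚ => (x : ℚ_[5])) (t_succ m)
      have h6 := congrArg (fun x : ℤ_[5] => (x : ℚ_[5])) h3
      simp only [PadicInt.coe_mul, PadicInt.coe_add, PadicInt.coe_natCast, PadicInt.coe_one,
        PadicInt.coe_pow] at h6
      have e1 : ((72 : ℤ_[5]) : ℚ_[5]) = 72 := rfl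
      have e2 : ((7 : ℤ_[5]) : ℚ_[5]) = 7 := rfl
      have e3 : ((11 : ℤ_[5]) : ℚ_[5]) = 11 := rfl
      have e4 : ((30 : ℤ_[5]) : ℚ_[5]) = 30 := rfl
      have e5 : ((2 : ℤ_[5]) : ℚ_[5]) = 2 := rfl
      have e6 : ((4 : ℤ_[5]) : ℚ_[5]) = 4 := rfl
      have e7 : ((3 : ℤ_[5]) : ℚ_[5]) = 3 := rfl
      have e8 : ((13 : ℤ_[5]) : ℚ_[5]) = 13 := rfl
      have e9 : ((19 : ℤ_[5]) : ℚ_[5]) = 19 := rfl
      have e10 : ((17 : ℤ_[5]) : ℚ_[5]) = 17 := rfl
      have e11 : ((23 : ℤ_[5]) : ℚ_[5]) = 23 := rfl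
      have e12 : ((29 : ℤ_[5]) : ℚ_[5]) = 29 := rfl
      have e13 : ((5 : ℤ_[5]) : ℚ_[5]) = 5 := rfl
      rw [e1, e2, e3, e4, e5, e6, e7, e8, e9, e10, e11, e12, e13] at h6
      push_cast at h4 h5 h6
      rw [h1] at h4
      have n0 : ((m : ℚ_[5]) + 1) ≠ 0 := by
        have : ((m + 1 : ℕ) : ℚ_[5]) ≠ 0 := by
          exact_mod_cast (by positivity : (m + 1 : ℕ) ≠ 0)
        push_cast at this
        exact this
      have n1 : ((5 * (m : ℚ_[5]) + 1) * (5 * m + 2) * (5 * m + 3) * (5 * m + 4)) ≠ 0 := by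
        have : (((5 * m + 1) * (5 * m + 2) * (5 * m + 3) * (5 * m + 4) : ℕ) : ℚ_[5]) ≠ 0 := by
          exact_mod_cast (by positivity : ((5 * m + 1) * (5 * m + 2) * (5 * m + 3) * (5 * m + 4) : ℕ) ≠ 0)
        push_cast at this
        exact this
      have n2 : (72 : ℚ_[5]) ≠ 0 := by norm_num
      have n3 : (25 : ℚ_[5]) ≠ 0 := by norm_num
      rw [show 5 * (m + 1) = 5 * m + 5 by ring]
      apply mul_left_cancel₀ (mul_ne_zero (mul_ne_zero (pow_ne_zero 5 n2)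
        (mul_ne_zero n3 (pow_ne_zero 2 n0))) (pow_ne_zero 2 n1))
      generalize ((t (5 * m + 5) : ℚ) : ℚ_[5]) = T5 at h4 ⊢
      generalize ((t (m + 1) : ℚ) : ℚ_[5]) = T1 at h5 ⊢
      generalize ((t m : ℚ) : ℚ_[5]) = T0 at h4 h5 ⊢
      generalize (m : ℚ_[5]) = n at *
      generalize hR : (30 * n + 1) * (30 * n + 7) * (30 * n + 13) * (30 * n + 19) *
        (30 * n + 11) * (30 * n + 17) * (30 * n + 23) * (30 * n + 29) = R at *
      generalize hP : (5 * n + 1) * (5 * n + 2) * (5 * n + 3) * (5 * n + 4) = P at *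
      linear_combination h4 - (25 * R * (ε : ℚ_[5])) * h5 + (25 * 72 * (n + 1) ^ 2 * T1) * h6
    · have h4 := congrArg φ h3
      simp only [map_mul, map_add, map_natCast, map_ofNat, map_one, map_pow] at h4
      generalize φ ε' = x at h4 ⊢
      generalize φ ε = e at h4 h2
      generalize (m : ZMod (5 ^ 2)) = n at h4
      linear_combination (-5) * h4 + ((30 * n + 1) * (30 * n + 7) * (30 * n + 13) *
        (30 * n + 19) * (30 * n + 11) * (30 * n + 17) * (30 * n + 23) * (30 * n + 29)) * h2 +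
        (43131288 + 1941044400 * n + 23415440400 * n ^ 2 + 133344792000 * n ^ 3 + 423882396000 * n ^ 4 + 796068000000 * n ^ 5 + 877716000000 * n ^ 6 + 524880000000 * n ^ 7 + 131220000000 * n ^ 8 + (-3095868211) * x + (-64497254400) * n * x + (-561663590400) * n ^ 2 * x + (-2673948672000) * n ^ 3 * x + (-7635534336000) * n ^ 4 * x + (-13436928000000) * n ^ 5 * x + (-14276736000000) * n ^ 6 * x + (-8398080000000) * n ^ 7 * x + (-2099520000000) * n ^ 8 * x) * h25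

lemma t_one : t 1 = 5 / 72 := by
  have h1 : Nat.choose (6 * 1) (3 * 1) = 20 := by decide
  have h2 : Nat.choose (3 * 1) 1 = 3 := by decide
  unfold t
  rw [h1, h2]
  norm_num

lemma t_pow (a : ℕ) : ∃ τ : ℤ_[5], ((t (5 ^ a) : ℚ) : ℚ_[5]) = 5 * (τ : ℚ_[5]) ∧
    5 * φ τ = 15 := by
  induction a with
  | zero =>
    obtain ⟨τ, hτ⟩ := (isUnit_nat (n := 72) (by norm_num)).dvd (a := (1 : ℤ_[5]))
    refine ⟨τ, ?_, ?_⟩
    · have h1 := congrArg (fun x : ℤ_[5] => (x : ℚ_[5])) hτ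
      simp only [PadicInt.coe_mul, PadicInt.coe_natCast, PadicInt.coe_one] at h1
      push_cast at h1
      rw [pow_zero, t_one]
      push_cast
      linear_combination (5 / 72 : ℚ_[5]) * h1
    · have h1 := congrArg φ hτ
      simp only [map_mul, map_natCast, map_one] at h1
      push_cast at h1
      linear_combination (-15) * h1 + (-43 * φ τ) * h25
  | succ a ih =>
    obtain ⟨τ, h1, h2⟩ := ih
    obtain ⟨ε, h3, h4⟩ := t_rel (5 ^ a)
    refine ⟨ε * τ, ?_, ?_⟩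
    · rw [show (5 : ℕ) ^ (a + 1) = 5 * 5 ^ a by ring, h3, h1, PadicInt.coe_mul]
      ring
    · rw [map_mul]
      linear_combination φ τ * h4 + h2

lemma two_pow_five (a : ℕ) : 5 * (2 : ZMod (5 ^ 2)) ^ 5 ^ a = 10 := by
  induction a with
  | zero => norm_num
  | succ a ih =>
    rw [pow_succ (5 : ℕ) a, pow_mul]
    generalize (2 : ZMod (5 ^ 2)) ^ 5 ^ a = y at ih ⊢
    linear_combination (y ^ 4 + 2 * y ^ 3 + 4 * y ^ 2 + 8 * y + 16) * ih + 6 * h25

lemma exists_of_phi {x : ℤ_[5]} (h : φ x = 0) : ∃ y, x = 25 * y := by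
  have h1 : x ∈ RingHom.ker (PadicInt.toZModPow (p := 5) 2) := h
  rw [PadicInt.ker_toZModPow, Ideal.mem_span_singleton] at h1
  obtain ⟨y, hy⟩ := h1
  refine ⟨y, ?_⟩
  rw [hy]
  norm_num

/-- the sum -/
theorem main_padic (a : ℕ) : ∃ z : ℤ_[5],
    (((∑ k ∈ range (5 ^ (a + 1)), (k : ℚ) * t k) / 5 ^ (a + 1) : ℚ) : ℚ_[5]) =
      75 + 125 * (z : ℚ_[5]) := by
  have h1 := exact_identity (5 ^ (a + 1)) (5 ^ (a + 1)) le_rfl
  have h2 : (∑ k ∈ range (5 ^ (a + 1)), (k : ℚ) * t k) / 5 ^ (a + 1) =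
      2 ^ (5 ^ (a + 1)) * t (5 ^ (a + 1)) * (36 * D (5 ^ (a + 1)) (5 ^ (a + 1))) := by
    rw [h1]
    push_cast
    field_simp
  obtain ⟨τ, h3, h4⟩ := t_pow (a + 1)
  have h5 := cast_D a
  have h6 := phi_E a
  have h7 := two_pow_five (a + 1)
  have h8 : φ (5 * (2 ^ (5 ^ (a + 1)) * τ) - 5) = 0 := by
    rw [map_sub, map_mul, map_mul, map_pow, map_ofNat, map_ofNat]
    linear_combination φ τ * h7 + 2 * h4 + h25
  have h9 : φ (E a - 15) = 0 := by
    rw [map_sub, map_ofNat, h6, sub_self]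
  obtain ⟨y, hy⟩ := exists_of_phi h8
  obtain ⟨z, hz⟩ := exists_of_phi h9
  refine ⟨z + 3 * y + 5 * y * z, ?_⟩
  rw [h2, Rat.cast_mul, h5, Rat.cast_mul, h3]
  have e1 : E a = 15 + 25 * z := by linear_combination hz
  have e2 : 5 * (2 ^ (5 ^ (a + 1)) * τ) * E a = 75 + 125 * (z + 3 * y + 5 * y * z) := by
    rw [e1]
    linear_combination (15 + 25 * z) * hy
  have e3 := congrArg (fun x : ℤ_[5] => (x : ℚ_[5])) e2
  simp only [PadicInt.coe_mul, PadicInt.coe_add, PadicInt.coe_pow] at e3 ⊢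
  have f1 : ((5 : ℤ_[5]) : ℚ_[5]) = 5 := rfl
  have f2 : ((2 : ℤ_[5]) : ℚ_[5]) = 2 := rfl
  have f3 : ((75 : ℤ_[5]) : ℚ_[5]) = 75 := rfl
  have f4 : ((125 : ℤ_[5]) : ℚ_[5]) = 125 := rfl
  rw [f1, f2, f3, f4] at e3
  push_cast
  rw [f1]
  linear_combination e3

lemma not_dvd_den {q : ℚ} {z : ℤ_[5]} (h : (q : ℚ_[5]) = (z : ℚ_[5])) : ¬ 5 ∣ q.den := by
  have h1 : ‖(q : ℚ_[5])‖ ≤ 1 := by rw [h]; exact PadicInt.norm_le_one z
  have h2 := PadicInt.isUnit_den q h1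
  rw [PadicInt.isUnit_iff, PadicInt.norm_natCast_eq_one_iff,
    Nat.Prime.coprime_iff_not_dvd (by norm_num)] at h2
  exact h2

theorem main_rat (a : ℕ) :
    ¬ 5 ∣ (((∑ k ∈ range (5 ^ (a + 1)), (k : ℚ) * t k) / 5 ^ (a + 1) - 75) / 125 : ℚ).den := by
  obtain ⟨z, hz⟩ := main_padic a
  apply not_dvd_den (z := z)
  rw [Rat.cast_div, Rat.cast_sub, hz]
  push_cast
  ring

end Pool.Agent.H94.Sun
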